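import Pool.Agent.Q117.HI.Family

/-!
# The independence number of highly irregular trees: `c* = 79/127`

Every highly irregular tree of order `n ≥ 2` satisfies `α ≤ (79 n - 22) / 127`; this is attained
with equality by a tree of order `26`, and the integer part of the bound is attained for infinitely
many `n`. In particular the supremum of `α / n` is `79/127`.
-/

set_option autoImplicit false

namespace Pool.Agent.Results.MP_913bbb_co.IndependenceConstant

/-- The degree of a vertex: the number of its neighbours. -/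
noncomputable def deg {V : Type*} (G : SimpleGraph V) (v : V) : ℕ := (G.neighborSet v).ncard

/-- Highly irregular: any two distinct neighbours `u`, `w` of a vertex `v` have different
degrees. -/
def HighlyIrregular {V : Type*} (G : SimpleGraph V) : Prop :=
  ∀ v u w, G.Adj v u → G.Adj v w → u ≠ w → deg G u ≠ deg G w

/-- The set of the ratios `α(T) / n` over all highly irregular trees `T` of order `n ≥ 2`. -/
def ratios : Set ℝ :=
  {x | ∃ (V : Type) (_ : Fintype V) (T : SimpleGraph V), T.IsTree ∧ HighlyIrregular T ∧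
    2 ≤ Fintype.card V ∧ x = (T.indepNum : ℝ) / (Fintype.card V : ℝ)}

/-- (1) `127 α(T) + 22 ≤ 79 n` for every highly irregular tree of order `n ≥ 2`;
(2) equality holds for some highly irregular tree (of order `26`);
(3) for every `t` there is a highly irregular tree of order `n = 100 + 254 t` with
`α(T) = ⌊(79 n - 22) / 127⌋`;
(4) `c* = 79/127`: this is the least upper bound of the ratios `α(T) / n`. -/
theorem result :
    (∀ (V : Type) [Fintype V] (T : SimpleGraph V), T.IsTree → HighlyIrregular T →
      2 ≤ Fintype.card V → 127 * T.indepNum + 22 ≤ 79 * Fintype.card V) ∧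
    (∃ (V : Type) (_ : Fintype V) (T : SimpleGraph V), T.IsTree ∧ HighlyIrregular T ∧
      Fintype.card V = 26 ∧ 127 * T.indepNum + 22 = 79 * Fintype.card V) ∧
    (∀ t : ℕ, ∃ (V : Type) (_ : Fintype V) (T : SimpleGraph V), T.IsTree ∧ HighlyIrregular T ∧
      Fintype.card V = 100 + 254 * t ∧ T.indepNum = (79 * Fintype.card V - 22) / 127) ∧
    IsLUB ratios (79 / 127 : ℝ) := by
  have h1 : ∀ (V : Type) [Fintype V] (T : SimpleGraph V), T.IsTree → HighlyIrregular T →
      2 ≤ Fintype.card V → 127 * T.indepNum + 22 ≤ 79 * Fintype.card V := by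
    intro V _ T hT hH hn
    exact Q117.HI.indepNum_le T hT hH hn
  have h3 : ∀ t : ℕ, ∃ (V : Type) (_ : Fintype V) (T : SimpleGraph V), T.IsTree ∧
      HighlyIrregular T ∧ Fintype.card V = 100 + 254 * t ∧
      T.indepNum = (79 * Fintype.card V - 22) / 127 := by
    intro t
    obtain ⟨V, hV, T, hT, hH, hc, ha⟩ := (Q117.HI.final_t t).tree (by decide)
    refine ⟨V, hV, T, hT, hH, hc, ?_⟩
    have := h1 V T hT hH (by omega)
    omega
  refine ⟨h1, ?_, h3, ?_, ?_⟩
  · obtain ⟨V, hV, T, hT, hH, hc, ha⟩ := Q117.HI.final_26.tree (by decide)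
    refine ⟨V, hV, T, hT, hH, hc, ?_⟩
    have := h1 V T hT hH (by omega)
    omega
  · rintro x ⟨V, _, T, hT, hH, hn, rfl⟩
    have h := h1 V T hT hH hn
    have h' : (127 * T.indepNum + 22 : ℝ) ≤ 79 * Fintype.card V := by exact_mod_cast h
    have hp : (0 : ℝ) < Fintype.card V := by
      have : (2 : ℝ) ≤ Fintype.card V := by exact_mod_cast hn
      linarith
    rw [div_le_div_iff₀ hp (by norm_num)]
    linarith
  · intro b hb
    by_contra hlt
    push Not at hlt
    obtain ⟨t, ht⟩ := exists_nat_gt (26 / (127 * 254 * (79 / 127 - b)))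
    obtain ⟨V, hV, T, hT, hH, hc, ha⟩ := h3 t
    have hmem : (T.indepNum : ℝ) / (Fintype.card V : ℝ) ∈ ratios :=
      ⟨V, hV, T, hT, hH, by omega, rfl⟩
    have hle := hb hmem
    have ha' : T.indepNum = 62 + 158 * t := by omega
    rw [ha', hc] at hle
    push_cast at hle
    have ht0 : (0 : ℝ) ≤ t := Nat.cast_nonneg t
    rw [div_le_iff₀ (by positivity)] at hle
    have hpos : 0 < 79 / 127 - b := by linarith
    rw [div_lt_iff₀ (by positivity)] at ht
    nlinarith

end Pool.Agent.Results.MP_913bbb_co.IndependenceConstant
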